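import Mathlib

namespace Pool.Agent.H.MP_0e3175_co

open Finset

set_option linter.unusedSectionVars false

/-- the sign `(-1)^t` -/
def sg (t : ZMod 2) : ℤ := (-1) ^ t.val

theorem sg_add : ∀ s t, sg (s + t) = sg s * sg t := by decide
theorem sg_sq : ∀ s, sg s * sg s = 1 := by decide
theorem sg_zero : sg 0 = 1 := rfl
theorem sg_succ : ∀ s, sg (s + 1) = -sg s := by decide
theorem sg_le : ∀ s t, sg s * sg t ≤ 1 := by decide
theorem sg_eq : ∀ s t, sg s * sg t = 1 → s = t := by decide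
theorem z2 : ∀ s : ZMod 2, s = 0 ∨ s = 1 := by decide
theorem aa : ∀ s : ZMod 2, s + s = 0 := by decide
theorem mm : ∀ s : ZMod 2, s * s = s := by decide

variable {ι : Type} [Fintype ι] [LinearOrder ι]

/-- the second elementary symmetric function -/
def Qs {R : Type} [CommSemiring R] (x : ι → R) : R := ∑ i, ∑ j, if i < j then x i * x j else 0

theorem tri {R : Type} [CommSemiring R] (a b : ι → R) : (∑ i, a i) * ∑ i, b i =
    (∑ i, ∑ j, if i < j then a i * b j + b i * a j else 0) + ∑ i, a i * b i := by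
  have h1 : ∀ i j, a i * b j = (if i < j then a i * b j else 0) + (if j < i then a i * b j else 0) +
      if i = j then a i * b j else 0 := by
    intro i j
    rcases lt_trichotomy i j with h | h | h
    · simp [h, h.ne, h.not_gt]
    · simp [h]
    · simp [h, h.ne', h.not_gt]
  rw [sum_mul_sum, sum_congr rfl fun i _ => sum_congr rfl fun j _ => h1 i j]
  simp only [sum_add_distrib, sum_ite_eq, mem_univ, if_true]
  congr 1
  rw [sum_comm (f := fun i j => if j < i then a i * b j else 0), ← sum_add_distrib]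
  refine sum_congr rfl fun i _ => ?_
  rw [← sum_add_distrib]
  refine sum_congr rfl fun j _ => ?_
  split_ifs
  · ring
  · simp

theorem Qs_add (x v : ι → ZMod 2) :
    Qs (x + v) = Qs x + Qs v + ((∑ i, x i) * ∑ i, v i + x ⬝ᵥ v) := by
  rw [tri, dotProduct, add_assoc, add_assoc, aa, add_zero]
  simp only [Qs, ← sum_add_distrib, Pi.add_apply]
  refine sum_congr rfl fun i _ => sum_congr rfl fun j _ => ?_
  split_ifs
  · ring
  · simp

def wt (x : ι → ZMod 2) : ℕ := ∑ i, (x i).val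

theorem Qs_wt (x : ι → ZMod 2) : Qs x = ((wt x / 2 : ℕ) : ZMod 2) := by
  have h1 := tri (fun i => (x i).val) (fun i => (x i).val)
  have h2 : ∀ i, (x i).val * (x i).val = (x i).val := fun i => by
    rcases z2 (x i) with h | h <;> simp [h, ZMod.val_one]
  have h3 : (∑ i, ∑ j, if i < j then (x i).val * (x j).val + (x i).val * (x j).val else 0) =
      2 * Qs fun i => (x i).val := by
    simp only [Qs, mul_sum]
    refine sum_congr rfl fun i _ => sum_congr rfl fun j _ => ?_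
    split_ifs
    · ring
    · simp
  have h4 : ((Qs fun i => (x i).val : ℕ) : ZMod 2) = Qs x := by simp [Qs]
  simp only [h2, h3] at h1
  rw [← h4, ZMod.natCast_eq_natCast_iff']
  change wt x * wt x = _ + wt x at h1
  generalize wt x = w at *
  generalize (Qs fun i => (x i).val) = N at *
  obtain ⟨s, r, hr, rfl⟩ : ∃ s r, r < 4 ∧ w = 4 * s + r :=
    ⟨w / 4, w % 4, Nat.mod_lt _ (by norm_num), by omega⟩
  have : (4 * s + r) * (4 * s + r) = 16 * (s * s) + 8 * (s * r) + r * r := by ring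
  interval_cases r <;> omega

theorem wt_cast (x : ι → ZMod 2) : ((wt x : ℕ) : ZMod 2) = ∑ i, x i := by simp [wt]

theorem sum_flip {V : Type} [Fintype V] [AddCommGroup V] (F : V → ℤ) (v : V)
    (h : ∀ x, F (x + v) = -F x) : ∑ x, F x = 0 := by
  have := Fintype.sum_equiv (Equiv.addRight v) (fun x => F (x + v)) F fun _ => rfl
  simp only [h, sum_neg_distrib] at this
  linarith

theorem vv (v : ι → ZMod 2) : v + v = 0 := funext fun _ => aa _

theorem char_sum (v : ι → ZMod 2) :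
    ∑ x, sg (x ⬝ᵥ v) = if v = 0 then 2 ^ Fintype.card ι else 0 := by
  split_ifs with h
  · simp [h, sg_zero]
  · obtain ⟨i, hi⟩ := Function.ne_iff.1 h
    refine sum_flip _ (Pi.single i 1) fun x => ?_
    rw [add_dotProduct, single_one_dotProduct, (z2 (v i)).resolve_left hi, sg_succ]

theorem quad (Q : (ι → ZMod 2) → ZMod 2) (B : (ι → ZMod 2) → (ι → ZMod 2) → ZMod 2)
    (h : ∀ x v, Q (x + v) = Q x + Q v + Q 0 + B x v) (hB : ∀ x x' v, B (x + x') v = B x v + B x' v)
    (hn : ∀ v, (∀ x, B x v = 0) → v = 0) : (∑ x, sg (Q x)) ^ 2 = 2 ^ Fintype.card ι := by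
  have h1 : ∀ x, ∑ y, sg (Q x) * sg (Q y) = ∑ v, sg (Q v + Q 0) * sg (B x v) := by
    intro x
    rw [← Fintype.sum_equiv (Equiv.addLeft x) (fun v => sg (Q x) * sg (Q (x + v))) _ fun _ => rfl]
    refine sum_congr rfl fun v _ => ?_
    rw [h, ← sg_add, ← sg_add]
    congr 1
    linear_combination aa (Q x)
  rw [sq, sum_mul_sum, sum_congr rfl fun x _ => h1 x, sum_comm, sum_eq_single 0]
  · have : ∀ x, B x 0 = 0 := fun x => by
      have := h x 0
      rw [add_zero] at this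
      linear_combination -this - aa (Q 0)
    simp [this, aa, sg_zero]
  · intro v _ hv
    rw [← mul_sum]
    have : ∃ x, B x v ≠ 0 := by
      by_contra h2
      push Not at h2
      exact hv (hn v h2)
    obtain ⟨x0, h0⟩ := this
    rw [sum_flip _ x0 fun x => by rw [hB, (z2 _).resolve_left h0, sg_succ], mul_zero]
  · simp

def Wt (f : (ι → ZMod 2) → ZMod 2) (z : ι → ZMod 2) : ℤ := ∑ x, sg (f x + x ⬝ᵥ z)

theorem inversion (f : (ι → ZMod 2) → ZMod 2) (x : ι → ZMod 2) :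
    ∑ z, Wt f z * sg (z ⬝ᵥ x) = 2 ^ Fintype.card ι * sg (f x) := by
  simp only [Wt, sum_mul]
  rw [sum_comm]
  have : ∀ y, ∑ z, sg (f y + y ⬝ᵥ z) * sg (z ⬝ᵥ x) =
      sg (f y) * if y + x = 0 then 2 ^ Fintype.card ι else 0 := by
    intro y
    rw [← char_sum, mul_sum]
    refine sum_congr rfl fun z _ => ?_
    rw [dotProduct_add, sg_add, sg_add, dotProduct_comm y z, mul_assoc]
  rw [sum_congr rfl fun y _ => this y, sum_eq_single x]
  · simp [vv, mul_comm]
  · intro y _ hy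
    rw [if_neg, mul_zero]
    intro h
    apply hy
    rw [← add_zero y, ← vv x, ← add_assoc, h, zero_add]
  · simp

theorem autocorr {f g : (ι → ZMod 2) → ZMod 2} {k : ℕ}
    (h : ∀ z, Wt f z = 2 ^ k * sg (g z)) {v : ι → ZMod 2} (hv : v ≠ 0) :
    ∑ z, sg (g z) * sg (g (z + v)) = 0 := by
  have h1 : ∑ z, Wt f z * Wt f (z + v) = 0 := by
    have : ∀ z, Wt f z * Wt f (z + v) = ∑ x, sg (f x + x ⬝ᵥ v) * (Wt f z * sg (z ⬝ᵥ x)) := by
      intro z
      rw [Wt.eq_1 f (z + v), mul_sum]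
      refine sum_congr rfl fun x _ => ?_
      simp only [dotProduct_add, sg_add, dotProduct_comm x z]
      ring
    rw [sum_congr rfl fun z _ => this z, sum_comm]
    simp only [← mul_sum, inversion]
    have h2 : ∀ x, sg (f x + x ⬝ᵥ v) * (2 ^ Fintype.card ι * sg (f x)) =
        2 ^ Fintype.card ι * sg (x ⬝ᵥ v) := fun x => by
      rw [sg_add]
      linear_combination (2 ^ Fintype.card ι * sg (x ⬝ᵥ v)) * sg_sq (f x)
    simp only [h2, ← mul_sum, char_sum, if_neg hv, mul_zero]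
  simp only [h, mul_mul_mul_comm ((2 : ℤ) ^ k), ← mul_sum] at h1
  exact (mul_eq_zero.1 h1).resolve_left (by positivity)

def Fam (f : (ι → ZMod 2) → ZMod 2) : Prop := ∃ (a b : ι → ZMod 2) (c : ZMod 2), ∑ i, a i = 0 ∧
  ∀ x, f x = Qs x + (a ⬝ᵥ x) * ∑ i, x i + b ⬝ᵥ x + c

def Bf (a x v : ι → ZMod 2) : ZMod 2 :=
  (∑ i, x i) * ∑ i, v i + x ⬝ᵥ v + (a ⬝ᵥ x) * ∑ i, v i + (a ⬝ᵥ v) * ∑ i, x i

theorem Qs_zero : Qs (0 : ι → ZMod 2) = 0 := by simp [Qs]

theorem fam_add {f : (ι → ZMod 2) → ZMod 2} {a b : ι → ZMod 2} {c : ZMod 2}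
    (h : ∀ x, f x = Qs x + (a ⬝ᵥ x) * ∑ i, x i + b ⬝ᵥ x + c) (x v) :
    f (x + v) = f x + f v + f 0 + Bf a x v := by
  simp only [h, Qs_add, Qs_zero, dotProduct_add, Pi.add_apply, sum_add_distrib, Bf,
    dotProduct_zero, Pi.zero_apply, sum_const_zero]
  linear_combination -aa c

theorem Bf_add (a x x' v : ι → ZMod 2) : Bf a (x + x') v = Bf a x v + Bf a x' v := by
  simp only [Bf, dotProduct_add, add_dotProduct, Pi.add_apply, sum_add_distrib]
  ring

theorem one_dot (x : ι → ZMod 2) : (1 : ι → ZMod 2) ⬝ᵥ x = ∑ i, x i := by simp [dotProduct]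

theorem card_even {k : ℕ} (hk : Fintype.card ι = 2 * k) : ∑ _i : ι, (1 : ZMod 2) = 0 := by
  simp only [sum_const, card_univ, hk, nsmul_eq_mul, mul_one, Nat.cast_mul]
  exact mul_eq_zero_of_left rfl _

theorem Bf_nd {a v : ι → ZMod 2} (ha : ∑ i, a i = 0) (hs : ∑ i, v i = 0)
    (h : ∀ x, Bf a x v = 0) : v = 0 := by
  have h1 : ∀ i, v i = a ⬝ᵥ v := fun i => by
    have := h (Pi.single i 1)
    simp only [Bf, hs, mul_zero, single_one_dotProduct, sum_pi_single', mem_univ, if_true] at this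
    linear_combination this - aa (a ⬝ᵥ v)
  have h2 : a ⬝ᵥ v = 0 := by
    have : a ⬝ᵥ v = (∑ i, a i) * (a ⬝ᵥ v) := by
      conv_lhs => rw [dotProduct, sum_congr rfl fun i _ => congrArg (a i * ·) (h1 i), ← sum_mul]
    rw [this, ha, zero_mul]
  exact funext fun i => (h1 i).trans h2

theorem Bf_one {k : ℕ} (hk : Fintype.card ι = 2 * k) {a : ι → ZMod 2} (ha : ∑ i, a i = 0) (v) :
    Bf a 1 v = ∑ i, v i := by
  simp only [Bf, Pi.one_apply, card_even hk, one_dot, dotProduct_comm a 1, ha]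
  ring

theorem pm_of_sq {s : ℤ} {k : ℕ} (h : s ^ 2 = 2 ^ (2 * k)) : s = 2 ^ k ∨ s = -2 ^ k := by
  rw [mul_comm, pow_mul] at h
  exact sq_eq_sq_iff_eq_or_eq_neg.1 h

theorem fam_dual {k : ℕ} (hk : Fintype.card ι = 2 * k) {g : (ι → ZMod 2) → ZMod 2} (hg : Fam g) :
    ∃ g', Fam g' ∧ ∀ z, Wt g z = 2 ^ k * sg (g' z) := by
  obtain ⟨a, b, c, ha, h⟩ := hg
  have h0 := quad g (Bf a) (fam_add h) (Bf_add a) fun v hv =>
    Bf_nd ha (by rw [← Bf_one hk ha, hv]) hv
  obtain ⟨c0, hc0⟩ : ∃ c0, ∑ x, sg (g x) = 2 ^ k * sg c0 := by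
    rw [hk] at h0
    rcases pm_of_sq h0 with h | h
    exacts [⟨0, by rw [h, sg_zero, mul_one]⟩, ⟨1, by rw [h]; simp [sg, ZMod.val_one]⟩]
  let L : (ι → ZMod 2) → ι → ZMod 2 := fun z => z + ((∑ i, z i) • (1 + a) + (a ⬝ᵥ z) • 1)
  have e1 := card_even hk
  have e2 : a ⬝ᵥ a = 0 := by simp only [dotProduct, mm, ha]
  have e3 : a ⬝ᵥ 1 = 0 := by rw [dotProduct_comm, one_dot, ha]
  have hL : ∀ y z, Bf a y (L z) = y ⬝ᵥ z := by
    intro y z
    simp only [Bf, L, Pi.add_apply, Pi.smul_apply, Pi.one_apply, smul_eq_mul, sum_add_distrib,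
      ← mul_sum, e1, ha, dotProduct_add, dotProduct_smul, e2, e3, dotProduct_comm y 1, one_dot,
      dotProduct_comm y a]
    linear_combination aa ((∑ i, y i) * ∑ i, z i) + aa ((a ⬝ᵥ y) * ∑ i, z i) +
      aa ((a ⬝ᵥ z) * ∑ i, y i)
  refine ⟨fun z => g (L z) + g 0 + c0, ?_, fun z => ?_⟩
  · have e4 : Bf a (1 + a) 1 = 0 := by
      simp only [Bf, Pi.add_apply, Pi.one_apply, sum_add_distrib, e1, ha, add_dotProduct, e3,
        one_dot]
      ring
    refine ⟨a, b + (g (1 + a) + g 0 + 1) • 1 + (g 1 + g 0) • a, c + g 0 + c0, ha, fun z => ?_⟩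
    have e5 : Bf a z ((∑ i, z i) • (1 + a) + (a ⬝ᵥ z) • 1) = ∑ i, z i := by
      simp only [Bf, Pi.add_apply, Pi.smul_apply, Pi.one_apply, smul_eq_mul, sum_add_distrib,
        ← mul_sum, e1, ha, dotProduct_add, dotProduct_smul, e2, e3, dotProduct_comm z 1, one_dot,
        dotProduct_comm z a]
      linear_combination mm (∑ i, z i) + aa ((a ⬝ᵥ z) * ∑ i, z i)
    have e6 : g ((∑ i, z i) • (1 + a) + (a ⬝ᵥ z) • 1) + g 0 =
        (g (1 + a) + g 0) * ∑ i, z i + (g 1 + g 0) * (a ⬝ᵥ z) := by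
      rcases z2 (∑ i, z i) with h1 | h1 <;> rcases z2 (a ⬝ᵥ z) with h2 | h2 <;>
        simp only [h1, h2, zero_smul, one_smul, add_zero, zero_add, mul_zero, mul_one, aa]
      rw [fam_add h, e4]
      ring
    simp only [L]
    rw [fam_add h, e5, add_assoc (g z), e6, h z]
    simp only [add_dotProduct, smul_dotProduct, one_dot, smul_eq_mul]
    ring
  · have : ∀ y, sg (g y + y ⬝ᵥ z) = sg (g (L z) + g 0) * sg (g (y + L z)) := by
      intro y
      rw [fam_add h y (L z), hL, ← sg_add]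
      congr 1
      linear_combination -aa (g (L z)) - aa (g 0)
    simp only [Wt, this, ← mul_sum]
    rw [Fintype.sum_equiv (Equiv.addRight (L z)) (fun y => sg (g (y + L z))) (fun y => sg (g y))
      fun _ => rfl, hc0, sg_add _ c0]
    ring

end Pool.Agent.H.MP_0e3175_co
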