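import Pool.Agent.H.MP_0e3175_co.A

namespace Pool.Agent.H.MP_0e3175_co

open Finset

set_option linter.unusedSectionVars false

variable {ι : Type} [Fintype ι] [LinearOrder ι]

def pv (p q : ι) : ι → ZMod 2 := Pi.single p 1 + Pi.single q 1

def SQ (g : (ι → ZMod 2) → ZMod 2) : Prop := ∀ p q r s y, y p ≠ y q → y r ≠ y s → p ≠ r → p ≠ s →
  q ≠ r → q ≠ s → g y + g (y + pv p q) + g (y + pv r s) + g (y + pv p q + pv r s) = 0

def AC (g : (ι → ZMod 2) → ZMod 2) : Prop := ∀ v ≠ 0, ∑ z, sg (g z) * sg (g (z + v)) = 0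

theorem AC.aff {g : (ι → ZMod 2) → ZMod 2} (h : AC g) (l : ι → ZMod 2) (c : ZMod 2) :
    AC fun y => g y + l ⬝ᵥ y + c := by
  intro v hv
  have : ∀ z, sg (g z + l ⬝ᵥ z + c) * sg (g (z + v) + l ⬝ᵥ (z + v) + c) =
      sg (l ⬝ᵥ v) * (sg (g z) * sg (g (z + v))) := fun z => by
    simp only [← sg_add, dotProduct_add]
    congr 1
    linear_combination aa c + aa (l ⬝ᵥ z)
  simp only [this, ← mul_sum, h v hv, mul_zero]

theorem pv_apply (p q i : ι) : pv p q i = (if i = p then 1 else 0) + if i = q then 1 else 0 := by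
  simp [pv, Pi.single_apply]

theorem dot_pv (l : ι → ZMod 2) (p q) : l ⬝ᵥ pv p q = l p + l q := by simp [pv]

theorem wt_eq (y : ι → ZMod 2) : wt y = (univ.filter fun i => y i = 1).card := by
  rw [card_filter]
  exact sum_congr rfl fun i _ => by rcases z2 (y i) with h | h <;> simp [h, ZMod.val_one]

theorem wt_diff (y y0 : ι → ZMod 2) : wt y + (univ.filter fun i => y0 i = 1 ∧ y i = 0).card =
    wt y0 + (univ.filter fun i => y0 i = 0 ∧ y i = 1).card := by
  simp only [wt, card_filter, ← sum_add_distrib]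
  exact sum_congr rfl fun i _ => by
    rcases z2 (y i) with h | h <;> rcases z2 (y0 i) with h' | h' <;> simp [h, h', ZMod.val_one]

theorem slice0 {g : (ι → ZMod 2) → ZMod 2} (h : SQ g) (y0 : ι → ZMod 2) (h0 : g y0 = 0)
    (h1 : ∀ p q, y0 p = 1 → y0 q = 0 → g (y0 + pv p q) = 0) (y) (hy : wt y = wt y0) : g y = 0 := by
  induction hn : (univ.filter fun i => y0 i = 1 ∧ y i = 0).card using Nat.strong_induction_on
    generalizing y with
  | _ n ih =>
  have hd := wt_diff y y0
  have step : ∀ y p q, wt y = wt y0 → y0 p = 1 → y p = 0 → y0 q = 0 → y q = 1 →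
      wt (y + pv p q) = wt y0 ∧ (univ.filter fun i => y0 i = 1 ∧ (y + pv p q) i = 0).card + 1 =
        (univ.filter fun i => y0 i = 1 ∧ y i = 0).card := by
    intro y p q a0 a1 a2 a3 a4
    have pq : p ≠ q := fun e => by simp [e, a3] at a1
    have b1 : (univ.filter fun i => y0 i = 1 ∧ (y + pv p q) i = 0) =
        (univ.filter fun i => y0 i = 1 ∧ y i = 0).erase p := by
      ext i
      by_cases c1 : i = p
      · simp [c1, pv_apply, a2, pq]
      · by_cases c2 : i = q <;> simp [c1, c2, pv_apply, a3]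
    have b2 : (univ.filter fun i => y0 i = 0 ∧ (y + pv p q) i = 1) =
        (univ.filter fun i => y0 i = 0 ∧ y i = 1).erase q := by
      ext i
      by_cases c2 : i = q
      · simp [c2, pv_apply, a4, pq.symm]
      · by_cases c1 : i = p <;> simp [c1, c2, pv_apply, a1]
    have b3 := card_erase_add_one (s := univ.filter fun i => y0 i = 1 ∧ y i = 0) (a := p)
      (by simp [a1, a2])
    have b4 := card_erase_add_one (s := univ.filter fun i => y0 i = 0 ∧ y i = 1) (a := q)
      (by simp [a3, a4])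
    have b5 := wt_diff y y0
    have b6 := wt_diff (y + pv p q) y0
    rw [b1, b2] at b6
    rw [b1]
    omega
  have zero : ∀ y, wt y = wt y0 → (univ.filter fun i => y0 i = 1 ∧ y i = 0).card = 0 → y = y0 := by
    intro y a0 a1
    have a2 := wt_diff y y0
    have a3 : (univ.filter fun i => y0 i = 0 ∧ y i = 1).card = 0 := by omega
    rw [card_eq_zero, filter_eq_empty_iff] at a1 a3
    funext i
    have := a1 (mem_univ i)
    have := a3 (mem_univ i)
    rcases z2 (y i) with h | h <;> rcases z2 (y0 i) with h' | h' <;> simp_all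
  rcases n with _ | _ | n
  · rw [zero y hy hn, h0]
  · obtain ⟨p, hp⟩ := card_pos.1 (show 0 < (univ.filter fun i => y0 i = 1 ∧ y i = 0).card by omega)
    obtain ⟨q, hq⟩ := card_pos.1 (show 0 < (univ.filter fun i => y0 i = 0 ∧ y i = 1).card by omega)
    simp only [mem_filter, mem_univ, true_and] at hp hq
    obtain ⟨a1, a2⟩ := step y p q hy hp.1 hp.2 hq.1 hq.2
    have := h1 p q hp.1 hq.1
    rwa [← zero _ a1 (by omega), add_assoc, vv, add_zero] at this
  · obtain ⟨p, hp, p', hp', pp⟩ := one_lt_card.1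
      (show 1 < (univ.filter fun i => y0 i = 1 ∧ y i = 0).card by omega)
    obtain ⟨q, hq, q', hq', qq⟩ := one_lt_card.1
      (show 1 < (univ.filter fun i => y0 i = 0 ∧ y i = 1).card by omega)
    simp only [mem_filter, mem_univ, true_and] at hp hq hp' hq'
    have n1 : p ≠ q' := fun e => by simp [← e, hp.1] at hq'
    have n2 : q ≠ p' := fun e => by simp [← e, hq.1] at hp'
    obtain ⟨a1, a2⟩ := step y p q hy hp.1 hp.2 hq.1 hq.2
    obtain ⟨a3, a4⟩ := step y p' q' hy hp'.1 hp'.2 hq'.1 hq'.2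
    obtain ⟨a5, a6⟩ := step (y + pv p q) p' q' a1 hp'.1
      (by simp [pv_apply, pp.symm, n2.symm, hp'.2]) hq'.1 (by simp [pv_apply, qq.symm, n1.symm, hq'.2])
    have := h p q p' q' y (by simp [hp.2, hq.2]) (by simp [hp'.2, hq'.2]) pp n1 n2 qq
    rwa [ih _ (by omega) _ a1 rfl, ih _ (by omega) _ a3 rfl, ih _ (by omega) _ a5 rfl, add_zero,
      add_zero, add_zero] at this

theorem SQ.aff {g : (ι → ZMod 2) → ZMod 2} (h : SQ g) (l : ι → ZMod 2) (c : ZMod 2) :
    SQ fun y => g y + l ⬝ᵥ y + c := by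
  intro p q r s y a1 a2 a3 a4 a5 a6
  simp only [dotProduct_add]
  linear_combination h p q r s y a1 a2 a3 a4 a5 a6 + 2 * aa c + 2 * aa (l ⬝ᵥ y) +
    aa (l ⬝ᵥ pv p q) + aa (l ⬝ᵥ pv r s)

theorem slice {g : (ι → ZMod 2) → ZMod 2} (h : SQ g) (r : ℕ) :
    ∃ l c, ∀ y, wt y = r → g y + l ⬝ᵥ y + c = 0 := by
  by_cases h1 : ∃ y0 : ι → ZMod 2, wt y0 = r
  swap
  · exact ⟨0, 0, fun y hy => (h1 ⟨y, hy⟩).elim⟩
  obtain ⟨y0, rfl⟩ := h1
  by_cases h2 : ∃ p0 q0, y0 p0 = 1 ∧ y0 q0 = 0
  swap
  · exact ⟨0, g y0, slice0 (h.aff 0 (g y0)) y0 (by simp [aa]) fun p q hp hq =>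
      (h2 ⟨p, q, hp, hq⟩).elim⟩
  obtain ⟨p0, q0, hp0, hq0⟩ := h2
  let l : ι → ZMod 2 := fun i => if y0 i = 1 then g y0 + g (y0 + pv i q0) else
    g (y0 + pv p0 i) + g (y0 + pv p0 q0)
  refine ⟨l, g y0 + l ⬝ᵥ y0, slice0 (h.aff _ _) y0 (aa _) fun p q hp hq => ?_⟩
  simp only [dotProduct_add, dot_pv]
  have e1 : l p = g y0 + g (y0 + pv p q0) := if_pos hp
  have e2 : l q = g (y0 + pv p0 q) + g (y0 + pv p0 q0) := if_neg (by simp [hq])
  rw [e1, e2]
  have key : g (y0 + pv p q) + g (y0 + pv p q0) + g (y0 + pv p0 q) + g (y0 + pv p0 q0) = 0 := by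
    by_cases c1 : p = p0
    · rw [c1]; linear_combination aa (g (y0 + pv p0 q)) + aa (g (y0 + pv p0 q0))
    by_cases c2 : q = q0
    · rw [c2]; linear_combination aa (g (y0 + pv p q0)) + aa (g (y0 + pv p0 q0))
    have n1 : p ≠ q := fun e => by simp [e, hq] at hp
    have n2 : p ≠ q0 := fun e => by simp [e, hq0] at hp
    have n3 : p0 ≠ q := fun e => by simp [e, hq] at hp0
    have n4 : p0 ≠ q0 := fun e => by simp [e, hq0] at hp0
    have := h p p0 q q0 (y0 + pv p q) (by simp [pv_apply, hp, hp0, n1, n3, Ne.symm c1])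
      (by simp [pv_apply, hq, hq0, n1.symm, n2.symm, Ne.symm c2]) n1 n2 n3 n4
    have f1 : y0 + pv p q + pv p p0 = y0 + pv p0 q := by
      simp only [pv]; linear_combination vv (Pi.single p 1)
    have f2 : y0 + pv p q + pv q q0 = y0 + pv p q0 := by
      simp only [pv]; linear_combination vv (Pi.single q 1)
    have f3 : y0 + pv p0 q + pv q q0 = y0 + pv p0 q0 := by
      simp only [pv]; linear_combination vv (Pi.single q 1)
    rw [f1, f2, f3] at this
    linear_combination this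
  linear_combination key + aa (g y0) + aa (l ⬝ᵥ y0)

variable {k : ℕ}

def vec (e : Fin k × Bool ≃ ι) (α w : Fin k → ZMod 2) : ι → ZMod 2 :=
  fun l => α (e.symm l).1 + if (e.symm l).2 then w (e.symm l).1 else 0

theorem vec_add (e : Fin k × Bool ≃ ι) (α γ w) : vec e (α + γ) w = vec e α w + vec e γ 0 := by
  funext l
  simp only [vec, Pi.add_apply, Pi.zero_apply, ite_self]
  ring

theorem vec_f (e : Fin k × Bool ≃ ι) (α w i) : vec e α w (e (i, false)) = α i := by simp [vec]

theorem vec_t (e : Fin k × Bool ≃ ι) (α w i) : vec e α w (e (i, true)) = α i + w i := by simp [vec]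

theorem sum_vec (e : Fin k × Bool ≃ ι) (F : (ι → ZMod 2) → ℤ) :
    ∑ w, ∑ α, F (vec e α w) = ∑ z, F z := by
  rw [← Fintype.sum_prod_type']
  refine Fintype.sum_bijective (fun p => vec e p.2 p.1) ⟨fun p p' h => ?_, fun z => ?_⟩ _ _
    fun _ => rfl
  · have h1 : p.2 = p'.2 := funext fun i => by simpa [vec_f] using congrFun h (e (i, false))
    have h2 : p.1 = p'.1 := funext fun i => by simpa [vec_t, h1] using congrFun h (e (i, true))
    exact Prod.ext h2 h1
  · refine ⟨(fun i => z (e (i, false)) + z (e (i, true)), fun i => z (e (i, false))), ?_⟩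
    funext l
    obtain ⟨⟨i, b⟩, rfl⟩ := e.surjective l
    cases b
    · simp only [vec_f]
    · simp only [vec_t, ← add_assoc, aa, zero_add]

theorem coset {g : (ι → ZMod 2) → ZMod 2} (h : AC g) (e : Fin k × Bool ≃ ι) {w0 : Fin k → ZMod 2}
    {c : ZMod 2} (h0 : ∀ α, g (vec e α w0) = c) {w} (hw : w ≠ w0) :
    ∑ α, sg (g (vec e α w)) = 0 := by
  have h1 : ∑ w, (∑ α, sg (g (vec e α w))) ^ 2 = (∑ α, sg (g (vec e α w0))) ^ 2 := by
    have : ∀ w, (∑ α, sg (g (vec e α w))) ^ 2 =
        ∑ γ, ∑ α, sg (g (vec e α w)) * sg (g (vec e α w + vec e γ 0)) := by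
      intro w
      rw [sq, sum_mul_sum, sum_comm (f := fun γ α => sg (g (vec e α w)) * sg (g (vec e α w + _)))]
      refine sum_congr rfl fun α _ => ?_
      exact (Fintype.sum_equiv (Equiv.addLeft α) _ _ fun γ => by simp [vec_add]).symm
    rw [sum_congr rfl fun w _ => this w, sum_comm,
      sum_congr rfl fun γ _ => sum_vec e fun z => sg (g z) * sg (g (z + vec e γ 0)),
      sum_eq_single 0]
    · have : vec e (0 : Fin k → ZMod 2) 0 = 0 := by funext l; simp [vec]
      simp only [this, add_zero, sg_sq, h0, sum_const, card_univ, nsmul_eq_mul, mul_pow, sq (sg c)]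
      simp [← Fintype.card_congr e, pow_mul]
    · intro γ _ hγ
      exact h _ fun h2 => hγ (funext fun i => by simpa [vec_f] using congrFun h2 (e (i, false)))
    · simp
  rw [← add_sum_erase _ _ (mem_univ w0), add_eq_left,
    sum_eq_zero_iff_of_nonneg fun _ _ => sq_nonneg _] at h1
  exact pow_eq_zero_iff two_ne_zero |>.1 (h1 w (by simp [hw]))

def wm (k m : ℕ) : Fin k → ZMod 2 := fun i => if i.val < m then 0 else 1

def nb (m : ℕ) (α : Fin k → ZMod 2) : ℕ := ∑ i, if i.val < m then (α i).val else 0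

theorem cnt_lt {m : ℕ} (hm : m ≤ k) : (∑ i : Fin k, if i.val < m then 1 else 0) = m := by
  rw [Fin.sum_univ_eq_sum_range (fun i => if i < m then 1 else 0), ← card_filter]
  rw [show (range k).filter (· < m) = range m by ext; simp; omega, card_range]

theorem wt_vec (e : Fin k × Bool ≃ ι) {m : ℕ} (hm : m ≤ k) (α) :
    wt (vec e α (wm k m)) + m = k + 2 * nb m α := by
  rw [wt, ← Equiv.sum_comp e, Fintype.sum_prod_type]
  refine Eq.trans (congrArg (_ + ·) (cnt_lt hm).symm) ?_
  rw [show k + 2 * nb m α = ∑ _i : Fin k, 1 + 2 * nb m α by simp]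
  simp only [nb, mul_sum, ← sum_add_distrib, Fintype.sum_bool, vec_f, vec_t, wm]
  refine sum_congr rfl fun i _ => ?_
  split_ifs <;> rcases z2 (α i) with h | h <;> simp [h, aa, ZMod.val_one]

theorem nb_le {m : ℕ} (hm : m ≤ k) (α : Fin k → ZMod 2) : nb m α ≤ m := by
  conv_rhs => rw [← cnt_lt hm]
  refine sum_le_sum fun i _ => ?_
  split_ifs
  exacts [Nat.le_of_lt_succ (ZMod.val_lt _), le_rfl]

theorem nb_full {m : ℕ} (hm : m ≤ k) {α : Fin k → ZMod 2} (h : nb m α = m) (i : Fin k)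
    (hi : i.val < m) : α i = 1 := by
  have := (sum_eq_sum_iff_of_le (s := univ) (f := fun i : Fin k => if i.val < m then (α i).val else 0)
    (g := fun i => if i.val < m then 1 else 0) fun i _ => by
      split_ifs
      exacts [Nat.le_of_lt_succ (ZMod.val_lt _), le_rfl]).1 (h.trans (cnt_lt hm).symm) i (mem_univ i)
  simp only [hi, if_true] at this
  rcases z2 (α i) with h | h <;> simp_all

theorem nb_zero {m : ℕ} {α : Fin k → ZMod 2} (h : nb m α = 0) (i : Fin k)
    (hi : i.val < m) : α i = 0 := by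
  have := sum_eq_zero_iff.1 h i (mem_univ i)
  simpa [hi] using this

theorem nb_flip {m : ℕ} (α : Fin k → ZMod 2) (i : Fin k) (hi : i.val < m) :
    ((nb m (α + Pi.single i 1) : ℕ) : ZMod 2) = nb m α + 1 := by
  simp only [nb, Nat.cast_sum, Nat.cast_ite, ZMod.natCast_val, ZMod.cast_id', id, Nat.cast_zero,
    Pi.add_apply, ite_add_zero, sum_add_distrib, add_right_inj]
  rw [sum_eq_single i (fun j _ hj => by simp [hj]) (by simp)]
  simp [hi]

theorem reach (e0 : Fin k × Bool ≃ ι) (α w) {y : ι → ZMod 2} (h : wt y = wt (vec e0 α w)) :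
    ∃ e : Fin k × Bool ≃ ι, vec e α w = y := by
  rw [wt_eq, wt_eq] at h
  obtain ⟨σ, hσ⟩ := Equiv.Perm.exists_map_finset_eq _ _ h.symm
  refine ⟨e0.trans σ, funext fun l => ?_⟩
  have h1 : l ∈ univ.filter (fun i => y i = 1) ↔ vec e0 α w (σ.symm l) = 1 := by
    rw [← hσ]; simp
  have h2 : vec (e0.trans σ) α w l = vec e0 α w (σ.symm l) := rfl
  rw [h2]
  simp only [mem_filter, mem_univ, true_and] at h1
  rcases z2 (y l) with h | h <;> rcases z2 (vec e0 α w (σ.symm l)) with h' | h' <;> simp_all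

theorem wt_le (e : Fin k × Bool ≃ ι) (y : ι → ZMod 2) : wt y ≤ 2 * k := by
  rw [wt_eq]
  refine (card_le_univ _).trans ?_
  simp [← Fintype.card_congr e, mul_comm]

theorem half {a b c : ℕ} (h : a = b + 2 * c) : ((a / 2 : ℕ) : ZMod 2) = (b / 2 : ℕ) + (c : ZMod 2) := by
  rw [← Nat.cast_add, show a / 2 = b / 2 + c by omega]

theorem spread {g : (ι → ZMod 2) → ZMod 2} (h : AC g) (e0 : Fin k × Bool ≃ ι) {m0 : ℕ}
    (h1 : m0 ≤ 1) (hk : 0 < k)
    (hb : ∀ y, wt y + m0 = k ∨ wt y = k + m0 → g y = ((wt y / 2 : ℕ) : ZMod 2)) (y)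
    (hy : (wt y + k + m0) % 2 = 0) : g y = ((wt y / 2 : ℕ) : ZMod 2) := by
  suffices H : ∀ t y, k ≤ wt y + m0 + 2 * t → wt y ≤ k + m0 + 2 * t → (wt y + k + m0) % 2 = 0 →
      g y = ((wt y / 2 : ℕ) : ZMod 2) from
    H k y (by omega) (by have := wt_le e0 y; omega) hy
  intro t
  induction t with
  | zero => exact fun y a1 a2 a3 => hb y (by omega)
  | succ t ih =>
  intro y a1 a2 a3
  by_cases a4 : k ≤ wt y + m0 + 2 * t ∧ wt y ≤ k + m0 + 2 * t
  · exact ih y a4.1 a4.2 a3
  obtain ⟨m, hm⟩ : ∃ m, m = m0 + 2 * t + 2 := ⟨_, rfl⟩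
  have a5 := wt_le e0 y
  have mk : m ≤ k := by omega
  obtain ⟨α0, e, he⟩ : ∃ (α0 : Fin k → ZMod 2) (e : Fin k × Bool ≃ ι), vec e α0 (wm k m) = y := by
    by_cases a6 : wt y + m = k
    · refine ⟨0, reach e0 _ _ ?_⟩
      have := wt_vec e0 mk 0
      simp only [nb, Pi.zero_apply, ZMod.val_zero, ite_self, sum_const_zero] at this
      omega
    · refine ⟨1, reach e0 _ _ ?_⟩
      have := wt_vec e0 mk 1
      simp only [nb, Pi.one_apply, ZMod.val_one, cnt_lt mk] at this
      omega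
  let i0 : Fin k := ⟨0, hk⟩
  let i1 : Fin k := ⟨1, by omega⟩
  have c1 := coset (h.aff (Pi.single (e (i0, false)) m0) 0) e (w0 := wm k m0)
    (c := (((k - m0) / 2 : ℕ) : ZMod 2)) (w := wm k m) (fun α => by
      have b1 := wt_vec e (show m0 ≤ k by omega) α
      have b2 := nb_le (show m0 ≤ k by omega) α
      rw [hb _ (by omega), half (b := k - m0) (c := nb m0 α) (by omega), single_dotProduct, vec_f]
      interval_cases m0
      · simp [nb]
      · have : nb 1 α = (α i0).val := by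
          rw [nb, sum_eq_single i0 (fun j _ hj => if_neg fun h => hj (Fin.ext (by
            simp only [i0]; omega))) (by simp)]
          simp [i0]
        simp [this, add_assoc, aa])
    (fun h2 => by
      have := congrFun h2 i1
      simp only [wm, i1] at this
      rw [if_pos (by omega), if_neg (by omega)] at this
      exact zero_ne_one this)
  simp only [single_dotProduct, vec_f, add_zero] at c1
  have c0 : ∀ α, ((wt (vec e α (wm k m)) / 2 : ℕ) : ZMod 2) = ((k - m) / 2 : ℕ) + (nb m α : ℕ) :=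
    fun α => half (by have := wt_vec e mk α; omega)
  have c2 : ∑ α, sg (((wt (vec e α (wm k m)) / 2 : ℕ) : ZMod 2) + m0 * α i0) = 0 := by
    refine sum_flip _ (Pi.single i1 1) fun α => ?_
    rw [c0, c0, nb_flip α i1 (by simp only [i1]; omega), ← sg_succ]
    have : i0 ≠ i1 := by simp [i0, i1]
    simp only [Pi.add_apply, Pi.single_eq_of_ne this]
    congr 1
    ring
  have c3 : ∑ α, sg (((k - m) / 2 : ℕ) : ZMod 2) *
      (sg (((wt (vec e α (wm k m)) / 2 : ℕ) : ZMod 2) + m0 * α i0) -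
        sg (g (vec e α (wm k m)) + m0 * α i0)) = 0 := by
    rw [← mul_sum, sum_sub_distrib, c1, c2, sub_self, mul_zero]
  rw [sum_eq_zero_iff_of_nonneg fun α _ => ?_] at c3
  · have c4 := c3 α0 (mem_univ _)
    rw [he, mul_eq_zero, sub_eq_zero] at c4
    rcases c4 with c4 | c4
    · have := sg_sq (((k - m) / 2 : ℕ) : ZMod 2)
      rw [c4] at this
      simp at this
    · exact (add_right_cancel (sg_eq _ _ (by rw [c4, sg_sq]))).symm
  · have b1 := wt_vec e mk α
    have b2 := nb_le mk α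
    by_cases b3 : nb m α = 0
    · rw [c0, b3, nb_zero b3 i0 (by simp only [i0]; omega), mul_sub]
      simp only [Nat.cast_zero, add_zero, mul_zero, sg_sq, sub_nonneg, sg_le]
    by_cases b4 : nb m α = m
    · rw [c0, b4, nb_full mk b4 i0 (by simp only [i0]; omega), mul_sub]
      have : (m : ZMod 2) + m0 = 0 := by
        rw [← Nat.cast_add, ZMod.natCast_eq_zero_iff]
        omega
      simp only [mul_one, add_assoc, this, add_zero, sg_sq, sub_nonneg, sg_le]
    · rw [ih _ (by omega) (by omega) (by omega), sub_self, mul_zero]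

theorem wt_compl (e : Fin k × Bool ≃ ι) (y : ι → ZMod 2) : wt (y + 1) + wt y = 2 * k := by
  rw [show 2 * k = ∑ _i : ι, 1 by simp [← Fintype.card_congr e, mul_comm]]
  simp only [wt, ← sum_add_distrib, Pi.add_apply, Pi.one_apply]
  exact sum_congr rfl fun i _ => by rcases z2 (y i) with h | h <;> simp [h, aa, ZMod.val_one]

theorem classify0 {g : (ι → ZMod 2) → ZMod 2} (h : AC g) (hs : SQ g) (e0 : Fin k × Bool ≃ ι)
    (hk : 0 < k) (hb : ∀ y, wt y = k → g y = ((wt y / 2 : ℕ) : ZMod 2)) : Fam g := by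
  have ev := spread h e0 (m0 := 0) zero_le_one hk fun y hy => hb y (by omega)
  have od : ∀ y, (wt y + k) % 2 = 1 → g (y + 1) = g y + 1 := by
    have a1 := h 1 fun h1 => by simpa using congrFun h1 (e0 (⟨0, hk⟩, false))
    have a2 : ∑ z : ι → ZMod 2, sg (∑ i, z i + k) = 0 :=
      sum_flip _ (Pi.single (e0 (⟨0, hk⟩, false)) 1) fun z => by
        simp only [Pi.add_apply, sum_add_distrib, sum_pi_single', mem_univ, if_true]
        rw [add_right_comm, sg_succ]
    have a3 : ∑ z : ι → ZMod 2, (sg (g z) * sg (g (z + 1)) - sg (∑ i, z i + k)) = 0 := by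
      rw [sum_sub_distrib, a1, a2, sub_self]
    have a4 : ∀ z : ι → ZMod 2, (wt z + k) % 2 = 1 → ∑ i, z i + k = 1 := fun z hz => by
      rw [← wt_cast, ← Nat.cast_add, ← ZMod.natCast_mod, hz, Nat.cast_one]
    rw [sum_eq_zero_iff_of_nonneg fun z _ => ?_] at a3
    · intro y hy
      have := a3 y (mem_univ _)
      rw [a4 y hy] at this
      revert this
      generalize g y = s
      generalize g (y + 1) = t
      revert s t
      decide
    · rcases Nat.mod_two_eq_zero_or_one (wt z + k) with hz | hz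
      · have b1 := wt_compl e0 z
        rw [ev z hz, ev (z + 1) (by omega), ← wt_cast, ← Nat.cast_add, ← ZMod.natCast_mod (_ + k),
          hz, (ZMod.natCast_eq_natCast_iff' (wt (z + 1) / 2) (wt z / 2) 2).2 (by
            have : wt z % 4 = 0 ∨ wt z % 4 = 1 ∨ wt z % 4 = 2 ∨ wt z % 4 = 3 := by omega
            have : k % 4 = 0 ∨ k % 4 = 1 ∨ k % 4 = 2 ∨ k % 4 = 3 := by omega
            omega), sg_sq]
        simp [sg_zero]
      · rw [a4 z hz, ← sg_add]
        generalize g z + g (z + 1) = s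
        revert s
        decide
  obtain ⟨a, c, ha, hc⟩ : ∃ a c, ∑ i, a i = 0 ∧ ∀ y, wt y + 1 = k → g y + a ⬝ᵥ y + c = 0 := by
    obtain ⟨a, c, hc⟩ := slice hs (k - 1)
    rcases z2 (∑ i, a i) with ha | ha
    · exact ⟨a, c, ha, fun y hy => hc y (by omega)⟩
    by_cases k1 : k = 1
    · refine ⟨0, g 0, by simp, fun y hy => ?_⟩
      have : y = 0 := funext fun i => by
        simpa using sum_eq_zero_iff.1 (show wt y = 0 by omega) i (mem_univ i)
      simp [this, aa]
    exfalso
    have b1 : ∀ y, wt y + 1 = k ∨ wt y = k + 1 → g y + a ⬝ᵥ y + c = 0 := by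
      rintro y (hy | hy)
      · exact hc y (by omega)
      · have := hc (y + 1) (by have := wt_compl e0 y; omega)
        rw [od y (by omega), dotProduct_add, dotProduct_comm a 1, one_dot, ha] at this
        linear_combination this - aa 1
    have b2 : ∀ (i : Fin k) α, wt (vec e0 α (Function.update 1 i 0)) + 1 = k ∨
        wt (vec e0 α (Function.update 1 i 0)) = k + 1 := by
      intro i α
      have : wt (vec e0 α (Function.update 1 i 0)) + 1 = k + 2 * (α i).val := by
        rw [wt, ← Equiv.sum_comp e0, Fintype.sum_prod_type, ← add_sum_erase _ _ (mem_univ i),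
          sum_congr (s₁ := univ.erase i) rfl (g := fun _ => 1) fun j hj => by
            simp only [Fintype.sum_bool, vec_f, vec_t, Function.update_of_ne (ne_of_mem_erase hj)]
            rcases z2 (α j) with h | h <;> simp [h, aa, ZMod.val_one]]
        simp [vec_f, vec_t]
        omega
      have := ZMod.val_lt (α i)
      omega
    have b3 := coset (h.aff a c) e0 (w0 := Function.update 1 ⟨0, hk⟩ 0) (c := 0)
      (w := Function.update 1 ⟨1, by omega⟩ 0) (fun α => b1 _ (b2 _ α)) fun h2 => by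
        simpa using congrFun h2 ⟨0, hk⟩
    simp [b1 _ (b2 _ _), sg_zero] at b3
  have o2 := spread (h.aff a (c + ((k - 1) / 2 : ℕ))) e0 (m0 := 1) le_rfl hk (by
    rintro y (hy | hy)
    · rw [← add_assoc, hc y hy, zero_add, show wt y = k - 1 by omega]
    · have := hc (y + 1) (by have := wt_compl e0 y; omega)
      rw [od y (by omega), dotProduct_add, dotProduct_comm a 1, one_dot, ha] at this
      rw [half (a := wt y) (b := k - 1) (c := 1) (by omega)]
      linear_combination this - aa 1)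
  refine ⟨a, (k : ZMod 2) • a + (c + ((k - 1) / 2 : ℕ)) • 1, (c + ((k - 1) / 2 : ℕ)) * k, ha,
    fun y => ?_⟩
  simp only [add_dotProduct, smul_dotProduct, one_dot, smul_eq_mul, Qs_wt]
  have hp : ∑ i, y i + k = (((wt y + k) % 2 : ℕ) : ZMod 2) := by
    rw [← wt_cast, ← Nat.cast_add, ZMod.natCast_mod]
  rcases Nat.mod_two_eq_zero_or_one (wt y + k) with hz | hz
  · rw [hz, Nat.cast_zero] at hp
    linear_combination ev y hz - (a ⬝ᵥ y + c + ((k - 1) / 2 : ℕ)) * hp
  · rw [hz, Nat.cast_one] at hp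
    linear_combination o2 y (by omega) - (a ⬝ᵥ y + c + ((k - 1) / 2 : ℕ)) * hp -
      aa (a ⬝ᵥ y + c + ((k - 1) / 2 : ℕ))

theorem classify {g : (ι → ZMod 2) → ZMod 2} (h : AC g) (hs : SQ g) (e0 : Fin k × Bool ≃ ι)
    (hk : 0 < k) : Fam g := by
  obtain ⟨l, c, hc⟩ := slice hs k
  obtain ⟨a, b, c', ha, h1⟩ := classify0 (h.aff l (c + (k / 2 : ℕ))) (hs.aff _ _) e0 hk
    fun y hy => by rw [← add_assoc, hc y hy, zero_add, hy]
  refine ⟨a, b + l, c' + (c + (k / 2 : ℕ)), ha, fun y => ?_⟩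
  rw [add_dotProduct]
  linear_combination h1 y - aa (l ⬝ᵥ y) - aa (c + (k / 2 : ℕ))

end Pool.Agent.H.MP_0e3175_co
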