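import Pool.Agent.H.MP_0e3175_co.B

namespace Pool.Agent.H.MP_0e3175_co

open Finset

variable {k : ℕ}

/-- sum of the two coordinates of the `i`-th pair -/
def u (x : Fin (2 * k) → ZMod 2) (i : Fin k) : ZMod 2 :=
  x ⟨2 * i, by omega⟩ + x ⟨2 * i + 1, by omega⟩

/-- the modified inner product of order `j` -/
def ip (j : ℕ) (x y : Fin (2 * k) → ZMod 2) : ZMod 2 :=
  ∑ l, x l * y l + ∑ i : Fin k, ∑ i' : Fin k,
    if i ≤ i' ∧ i'.val < j then u x i * u x i' * u y i * u y i' else 0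

/-- the Walsh-Hadamard transform of order `j` -/
def WH (j : ℕ) (f : (Fin (2 * k) → ZMod 2) → ZMod 2) (y : Fin (2 * k) → ZMod 2) : ℤ :=
  ∑ x, (-1) ^ (f x + ip j x y).val

/-- `r`-bent functions in `2k` variables -/
def Bent (r : ℕ) (f : (Fin (2 * k) → ZMod 2) → ZMod 2) : Prop :=
  ∀ (π : Equiv.Perm (Fin (2 * k))) (j : ℕ), 1 ≤ j → j ≤ r → ∀ y,
    WH j (fun x => f fun l => x (π l)) y = 2 ^ k ∨ WH j (fun x => f fun l => x (π l)) y = -2 ^ k

def cc (j : ℕ) (y x : Fin (2 * k) → ZMod 2) (i : Fin k) : ZMod 2 :=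
  if i.val < j then u x i * u y i else 0

theorem ip_eq (j : ℕ) (x y : Fin (2 * k) → ZMod 2) :
    ip j x y = x ⬝ᵥ y + (Qs (cc j y x) + ∑ i, cc j y x i) := by
  rw [ip, dotProduct, Qs, ← sum_add_distrib]
  congr 1
  refine sum_congr rfl fun i _ => ?_
  have : cc j y x i = ∑ i', if i = i' then cc j y x i else 0 := by simp
  rw [this, ← sum_add_distrib]
  refine sum_congr rfl fun i' _ => ?_
  rw [← this]
  simp only [cc]
  rcases lt_trichotomy i i' with h | h | h
  · have h1 : i.val < i'.val := h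
    simp only [h, h.le, h.ne, true_and, if_true, if_false, add_zero]
    split_ifs <;> first | omega | ring
  · subst h
    simp only [le_refl, true_and, lt_irrefl, if_true, if_false, zero_add]
    split_ifs
    · rw [mm, mul_assoc, mm]
    · rfl
  · simp [h.not_ge, h.not_gt, h.ne']

def ap (i : Fin k) : Fin (2 * k) → ZMod 2 := pv ⟨2 * i, by omega⟩ ⟨2 * i + 1, by omega⟩

theorem u_eq (x : Fin (2 * k) → ZMod 2) (i) : u x i = x ⬝ᵥ ap i := by rw [ap, dot_pv, u]

theorem u_ap (i i' : Fin k) : u (ap i) i' = 0 := by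
  simp only [u, ap, pv_apply, Fin.ext_iff]
  split_ifs <;> first | rfl | omega

theorem sum_ap (i : Fin k) : ∑ l, ap i l = 0 := by
  rw [← one_dot, ap, dot_pv]
  rfl

theorem cc_add (j : ℕ) (y x v : Fin (2 * k) → ZMod 2) : cc j y (x + v) = cc j y x + cc j y v := by
  funext i
  simp only [cc, u_eq, add_dotProduct, Pi.add_apply]
  split_ifs
  · ring
  · simp

theorem cc_of {j : ℕ} {y x : Fin (2 * k) → ZMod 2} (h : ∀ i, u x i = 0) : cc j y x = 0 := by
  funext i
  simp [cc, h]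

theorem suff {f : (Fin (2 * k) → ZMod 2) → ZMod 2} (hf : Fam f) (j : ℕ) (y) :
    WH j f y = 2 ^ k ∨ WH j f y = -2 ^ k := by
  obtain ⟨a, b, c, ha, h⟩ := hf
  refine pm_of_sq ?_
  have z0 : cc j y 0 = 0 := cc_of fun i => by simp [u]
  have := quad (fun x => f x + ip j x y) (fun x v => Bf a x v +
    ((∑ i, cc j y x i) * ∑ i, cc j y v i + cc j y x ⬝ᵥ cc j y v)) (fun x v => by
      simp only [ip_eq, fam_add h x v, cc_add, Qs_add, add_dotProduct, Pi.add_apply,
        sum_add_distrib, z0, Qs_zero, zero_dotProduct, Pi.zero_apply, sum_const_zero]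
      ring) (fun x x' v => by
      simp only [Bf_add, cc_add, add_dotProduct, Pi.add_apply, sum_add_distrib]
      ring) (fun v hv => by
      have s0 : ∑ i, v i = 0 := by
        have := hv 1
        rw [cc_of (x := 1) fun i => rfl, Bf_one (k := k) (by simp) ha] at this
        simpa using this
      have s1 : cc j y v = 0 := cc_of fun i => by
        have := hv (ap i)
        rw [cc_of (u_ap i)] at this
        simp only [Bf, s0, sum_ap] at this
        rw [u_eq, dotProduct_comm]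
        simpa using this
      exact Bf_nd ha s0 fun x => by simpa [s1] using hv x)
  rwa [Fintype.card_fin] at this

theorem fam_perm {f : (Fin (2 * k) → ZMod 2) → ZMod 2} (hf : Fam f) (π : Equiv.Perm (Fin (2 * k))) :
    Fam fun x => f fun l => x (π l) := by
  obtain ⟨a, b, c, ha, h⟩ := hf
  have e : ∀ a x : Fin (2 * k) → ZMod 2, (a ⬝ᵥ fun l => x (π l)) = (fun l => a (π.symm l)) ⬝ᵥ x :=
    fun a x => Fintype.sum_equiv π _ _ fun l => by simp
  refine ⟨fun l => a (π.symm l), fun l => b (π.symm l), c, by rw [Equiv.sum_comp π.symm a, ha],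
    fun x => ?_⟩
  simp only [h, Qs_wt, e, wt, Equiv.sum_comp π x, Equiv.sum_comp π fun l => (x l).val]

theorem wt_perm (f : (Fin (2 * k) → ZMod 2) → ZMod 2) (π : Equiv.Perm (Fin (2 * k))) (z) :
    Wt (fun x => f fun l => x (π l)) z = Wt f fun l => z (π l) := by
  refine Fintype.sum_equiv (Equiv.arrowCongr π.symm (Equiv.refl _)) _ _ fun x => ?_
  congr 2
  exact (Fintype.sum_equiv π _ _ fun l => rfl).symm

theorem wh_one (hk : 0 < k) (f : (Fin (2 * k) → ZMod 2) → ZMod 2) (z) :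
    WH 1 f (z + u z ⟨0, hk⟩ • ap ⟨0, hk⟩) = Wt f z := by
  refine sum_congr rfl fun x _ => ?_
  change sg _ = _
  congr 2
  rw [ip, sum_eq_single (s := (univ : Finset (Fin k))) ⟨0, hk⟩,
    sum_eq_single (s := (univ : Finset (Fin k))) ⟨0, hk⟩]
  · have : u (z + u z ⟨0, hk⟩ • ap ⟨0, hk⟩) ⟨0, hk⟩ = u z ⟨0, hk⟩ := by
      rw [u_eq, add_dotProduct, smul_dotProduct, ← u_eq, ← u_eq, u_ap, smul_zero, add_zero]
    rw [if_pos ⟨le_rfl, Nat.one_pos⟩, this, mm, mul_assoc, mm]
    change x ⬝ᵥ _ + _ = _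
    rw [dotProduct_add, dotProduct_smul, ← u_eq, smul_eq_mul]
    linear_combination aa (u x ⟨0, hk⟩ * u z ⟨0, hk⟩)
  · exact fun i _ hi => if_neg fun h => hi (Fin.ext (by simp only; omega))
  · simp
  · refine fun i _ hi => sum_eq_zero fun i' _ => if_neg fun h => hi (Fin.ext ?_)
    have : i.val ≤ i'.val := h.1
    simp only
    omega
  · simp

theorem wh_two (hk : 1 < k) (f : (Fin (2 * k) → ZMod 2) → ZMod 2) {y} (h0 : u y ⟨0, by omega⟩ = 1)
    (h1 : u y ⟨1, hk⟩ = 1) : 2 * WH 2 f y = -Wt f y + Wt f (y + ap ⟨0, by omega⟩) +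
      Wt f (y + ap ⟨1, hk⟩) + Wt f (y + ap ⟨0, by omega⟩ + ap ⟨1, hk⟩) := by
  simp only [WH, Wt, mul_sum, ← sum_neg_distrib, ← sum_add_distrib]
  refine sum_congr rfl fun x _ => ?_
  change 2 * sg _ = _
  have e : (∑ i : Fin k, ∑ i' : Fin k, if i ≤ i' ∧ i'.val < 2 then
      u x i * u x i' * u y i * u y i' else 0) =
      u x ⟨0, by omega⟩ + u x ⟨0, by omega⟩ * u x ⟨1, hk⟩ + u x ⟨1, hk⟩ := by
    obtain ⟨k, rfl⟩ : ∃ k', k = k' + 2 := ⟨k - 2, by omega⟩
    simp only [Fin.sum_univ_succ, Fin.le_def, Fin.val_succ, Fin.val_zero]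
    simp only [show ∀ a b : ℕ, ¬ (a ≤ b + 1 + 1 ∧ b + 1 + 1 < 2) from fun a b => by omega,
      show ∀ a : ℕ, ¬ (a + 1 + 1 ≤ 0 + 1 ∧ 0 + 1 < 2) from fun a => by omega,
      show ∀ a : ℕ, ¬ (a + 1 ≤ 0 ∧ 0 < 2) from fun a => by omega, if_false, sum_const_zero]
    change u y 0 = 1 at h0
    change u y (Fin.succ 0) = 1 at h1
    simp only [h0, h1, mul_one, mm]
    simp
  rw [ip, e]
  simp only [dotProduct_add, ← u_eq, ← add_assoc]
  change 2 * sg (f x + x ⬝ᵥ y + _ + _ + _) = _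
  generalize f x + x ⬝ᵥ y = t
  generalize u x ⟨0, by omega⟩ = s
  generalize u x ⟨1, hk⟩ = s'
  revert t s s'
  decide

theorem nec (hk : 0 < k) {f : (Fin (2 * k) → ZMod 2) → ZMod 2} (h : Bent k f) : Fam f := by
  have h1 : ∀ z, ∃ s, Wt f z = 2 ^ k * sg s := by
    intro z
    have := h 1 1 le_rfl hk (z + u z ⟨0, hk⟩ • ap ⟨0, hk⟩)
    rw [wh_one] at this
    rcases this with h | h
    exacts [⟨0, h.trans (by rw [sg_zero, mul_one])⟩, ⟨1, h.trans (by simp [sg, ZMod.val_one])⟩]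
  choose g hg using h1
  have hs : SQ g := by
    intro p q r s y a1 a2 a3 a4 a5 a6
    have pq : p ≠ q := fun e => a1 (e ▸ rfl)
    have rs : r ≠ s := fun e => a2 (e ▸ rfl)
    have inj : Function.Injective ![p, q, r, s] := by
      intro i j
      fin_cases i <;> fin_cases j <;> simp [*, pq.symm, rs.symm, a3.symm, a4.symm, a5.symm, a6.symm]
    have k2 : 1 < k := by
      have := Fintype.card_le_of_injective _ inj
      simp at this
      omega
    obtain ⟨π, hπ⟩ := Equiv.Perm.exists_extending_pair _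
      (fun i : Fin 4 => (⟨i, by omega⟩ : Fin (2 * k))) inj fun i j h => Fin.ext (by simpa using h)
    have b0 : π p = ⟨0, by omega⟩ := hπ 0
    have b1 : π q = ⟨1, by omega⟩ := hπ 1
    have b2 : π r = ⟨2, by omega⟩ := hπ 2
    have b3 : π s = ⟨3, by omega⟩ := hπ 3
    have ne1 : ∀ a b : ZMod 2, a ≠ b → a + b = 1 := by decide
    have c1 := wh_two k2 (fun x => f fun l => x (π l)) (y := fun l => y (π.symm l))
      (by simp only [u]; exact ne1 _ _ (by simpa [← b0, ← b1] using a1))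
      (by simp only [u]; exact ne1 _ _ (by simpa [← b2, ← b3] using a2))
    have c2 := h π 2 one_le_two k2 fun l => y (π.symm l)
    have d0 : ∀ l, ap ⟨0, by omega⟩ (π l) = pv p q l := fun l => by
      simp [ap, pv_apply, ← b0, ← b1]
    have d1 : ∀ l, ap ⟨1, k2⟩ (π l) = pv r s l := fun l => by
      simp [ap, pv_apply, ← b2, ← b3]
    simp only [wt_perm, Pi.add_apply, Equiv.symm_apply_apply, d0, d1, hg] at c1
    change _ = -(_ * sg (g y)) + _ * sg (g (y + pv p q)) + _ * sg (g (y + pv r s)) +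
      _ * sg (g (y + pv p q + pv r s)) at c1
    have key : ∀ a b c d : ZMod 2, (-sg a + sg b + sg c + sg d = 2 ∨
        -sg a + sg b + sg c + sg d = -2) → a + b + c + d = 0 := by decide
    have p0 : (2 : ℤ) ^ k ≠ 0 := by positivity
    refine key _ _ _ _ (c2.imp (fun e => mul_left_cancel₀ p0 ?_) fun e => mul_left_cancel₀ p0 ?_)
    · rw [e] at c1; linarith
    · rw [e] at c1; linarith
  have e0 : Fin k × Bool ≃ Fin (2 * k) := Fintype.equivOfCardEq (by simp [mul_comm])
  obtain ⟨g', h2, h3⟩ := fam_dual (k := k) (by simp) (classify (fun v hv => autocorr hg hv) hs e0 hk)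
  have : f = g' := by
    funext x
    have a1 := inversion f x
    have a2 := h3 x
    simp only [hg, mul_assoc, ← mul_sum, ← sg_add] at a1
    rw [Wt] at a2
    rw [a2, Fintype.card_fin, two_mul, pow_add, mul_assoc] at a1
    have p0 : (2 : ℤ) ^ k ≠ 0 := by positivity
    have := mul_left_cancel₀ p0 (mul_left_cancel₀ p0 a1)
    exact sg_eq _ _ (by rw [this, sg_sq])
  rwa [this]

theorem main (hk : 0 < k) (f : (Fin (2 * k) → ZMod 2) → ZMod 2) : Bent k f ↔ Fam f :=
  ⟨nec hk, fun h π j _ _ y => suff (fam_perm h π) j y⟩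

end Pool.Agent.H.MP_0e3175_co
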